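import Mathlib

set_option autoImplicit false
open Set Function Topology Filter TopologicalSpace

namespace Pool.Agent.H.MP_e70507
universe u v w

lemma close {B : Type u} (h : Finset B → Set B) (hc : ∀ R, (h R).Countable) :
    ∃ S : Set B, S.Countable ∧ S ⊆ ⋃ R, h R ∧ ∀ R : Finset B, ↑R ⊆ S → h R ⊆ S := by
  let g : Set B → Set B := fun S => S ∪ ⋃ R ∈ {R : Finset B | ↑R ⊆ S}, h R
  have hg : ∀ S : Set B, S.Countable → (g S).Countable := fun S hS => by
    refine hS.union (Set.Countable.biUnion ?_ fun R _ => hc R)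
    refine ((countable_ofPred_finite_subset hS).preimage_of_injOn
      (f := fun R : Finset B => (R : Set B)) (Finset.coe_injective.injOn)).mono fun R hR => ?_
    exact ⟨R.finite_toSet, hR⟩
  let T : ℕ → Set B := fun k => g^[k] ∅
  have hT : ∀ k, T (k + 1) = g (T k) := fun k => iterate_succ_apply' g k _
  have hm : Monotone T := monotone_nat_of_le_succ fun k => by rw [hT]; exact subset_union_left
  refine ⟨⋃ k, T k, countable_iUnion fun k => ?_, iUnion_subset fun k => ?_, fun R hR => ?_⟩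
  · induction k with
    | zero => exact countable_empty
    | succ k ih => rw [hT]; exact hg _ ih
  · induction k with
    | zero => exact empty_subset _
    | succ k ih =>
      rw [hT]
      exact union_subset ih (iUnion₂_subset fun R _ => subset_iUnion h R)
  · obtain ⟨k, hk⟩ := hm.directed_le.exists_mem_subset_of_finset_subset_biUnion hR
    refine Subset.trans ?_ (subset_iUnion T (k + 1))
    rw [hT]
    exact fun b hb => Or.inr (mem_iUnion₂.2 ⟨R, hk, hb⟩)

variable {X : Type u} {K : Type v} {β : Type w} [TopologicalSpace X] [TopologicalSpace K]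
  [CompactSpace K] [TopologicalSpace β]

lemma theta (v : β → C(X × K, ℝ)) (hv : ∀ p, Continuous fun b => v b p) (hi : Injective v)
    (c : β) : ∃ G : Finset β × ℕ → β → X → ℝ, (∀ i, Continuous (G i)) ∧
      (∀ i b, Continuous (G i b)) ∧ (∀ i b x, 0 ≤ G i b x) ∧ (∀ i, G i c = 0) ∧
      ∀ S, ∀ b ∈ closure S, b ≠ c → ∃ i, ↑i.1 ⊆ insert c S ∧ G i b ≠ 0 := by
  classical
  obtain ⟨ρ, hρ⟩ := PartitionOfUnity.exists_isSubordinate
    (s := {w : C(K × K, ℝ) | ∀ k, w (k, k) = 0})
    (by simpa only [ofPred_forall] using isClosed_iInter fun k =>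
      isClosed_eq (continuous_eval_const _) continuous_const)
    (fun D : Finset K => {w | ∀ k, ∃ d ∈ D, w (k, d) < 1}) (fun D => by
      have := isClosedMap_fst_of_compactSpace _ (isClosed_biInter (s := (D : Set K))
        fun d _ => isClosed_le (continuous_const (y := (1 : ℝ)))
          (g := fun p : C(K × K, ℝ) × K => p.1 (p.2, d)) (by fun_prop))
      convert this.isOpen_compl
      ext w
      simp) fun w hw => by
      obtain ⟨D, hD⟩ := isCompact_univ.elim_finite_subcover (fun d => {k | w (k, d) < 1})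
        (fun d => isOpen_lt (by fun_prop) continuous_const) fun k _ => mem_iUnion.2
          ⟨k, (hw k).trans_lt one_pos⟩
      exact mem_iUnion.2 ⟨D, fun k => by simpa using hD (mem_univ k)⟩
  let W : Finset β × ℕ → C(X, C(K × K, ℝ)) := fun i => ContinuousMap.curry
    ⟨fun p => i.2 * ∑ a ∈ i.1, |v a (p.1, p.2.1) - v a (p.1, p.2.2)|, by fun_prop⟩
  let t : β → X → Finset K → ℝ := fun b x D => ∑ d ∈ D, |v b (x, d) - v c (x, d)|
  have t0 : ∀ i b x D, 0 ≤ ρ D (W i x) * t b x D := fun i b x D =>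
    mul_nonneg (ρ.nonneg _ _) (Finset.sum_nonneg fun _ _ => abs_nonneg _)
  have e : ∀ i b x, ∑ᶠ D, ρ D (W i x) * t b x D =
      ∑ D ∈ ρ.finsupport (W i x), ρ D (W i x) * t b x D := fun i b x =>
    (ρ.sum_finsupport_smul_eq_finsum fun D _ => t b x D).symm
  refine ⟨fun i b x => ∑ᶠ D, ρ D (W i x) * t b x D, fun i => continuous_pi fun x => ?_,
    fun i b => continuous_finsum (fun D => by fun_prop) ((ρ.locallyFinite.preimage_continuous
      (W i).continuous).subset fun D x hx => left_ne_zero_of_mul hx),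
    fun i b x => finsum_nonneg (t0 i b x), fun i => funext fun x => by simp [t],
    fun S b hb h => ?_⟩
  · simp only [e]
    exact continuous_finsetSum _ fun D _ => continuous_const.mul (continuous_finsetSum _
      fun d _ => ((hv _).sub continuous_const).abs)
  obtain ⟨⟨x, k⟩, h⟩ := DFunLike.ne_iff.1 (hi.ne h)
  obtain ⟨T, hT⟩ := (isClosed_eq (f := fun d => v b (x, d)) (g := fun d => v c (x, d))
    (by fun_prop) (by fun_prop)).isCompact.elim_finite_subcover
    (fun j : ↥(insert c S) × ℕ => {d | 1 < j.2 * |v j.1 (x, k) - v j.1 (x, d)|})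
    (fun j => isOpen_lt continuous_const (by fun_prop)) fun d hd => by
      obtain ⟨a, a1, a2⟩ : ∃ a ∈ insert c S, v a (x, k) ≠ v a (x, d) := by
        by_contra hc
        push Not at hc
        exact h ((closure_minimal (fun a ha => hc a (Or.inr ha)) (isClosed_eq (hv _) (hv _))
          hb).trans (hd.trans (hc c (Or.inl rfl)).symm))
      have := abs_pos.2 (sub_ne_zero.2 a2)
      obtain ⟨m, hm⟩ := exists_nat_gt (1 / |v a (x, k) - v a (x, d)|)
      exact mem_iUnion.2 ⟨(⟨a, a1⟩, m), (div_lt_iff₀ this).1 hm⟩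
  refine ⟨(T.image (·.1.1), T.sup (·.2)), fun a ha => ?_, fun h0 => ?_⟩
  · obtain ⟨j, -, rfl⟩ := Finset.mem_image.1 ha
    exact j.1.2
  set i := (T.image (·.1.1), T.sup (·.2))
  obtain ⟨D, hD⟩ := ρ.exists_pos (x := W i x) fun k => by simp [W]
  obtain ⟨d, d1, d2⟩ := hρ D (subset_tsupport _ hD.ne') k
  have h1 := (Finset.sum_eq_zero_iff_of_nonneg fun D _ => t0 i b x D).1 ((e i b x).symm.trans
    (congrFun h0 x)) D ((ρ.mem_finsupport _).2 hD.ne')
  have h2 := (Finset.sum_eq_zero_iff_of_nonneg fun _ _ => abs_nonneg _).1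
    ((mul_eq_zero.1 h1).resolve_left hD.ne') d d1
  obtain ⟨j, j1, j2⟩ := mem_iUnion₂.1 (hT (a := d) (sub_eq_zero.1 (abs_eq_zero.1 h2)))
  exact d2.not_gt (lt_of_lt_of_le j2 (mul_le_mul (Nat.cast_le.2 (Finset.le_sup (f := (·.2)) j1))
    (Finset.single_le_sum (f := fun a => |v a (x, k) - v a (x, d)|) (fun _ _ => abs_nonneg _)
      (Finset.mem_image_of_mem _ j1)) (abs_nonneg _) (Nat.cast_nonneg _)))

omit [TopologicalSpace K] [CompactSpace K] in
lemma sum {G : Finset β × ℕ → β → X → ℝ} (g1 : ∀ i, Continuous (G i))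
    (g2 : ∀ i b, Continuous (G i b)) (g3 : ∀ i b x, 0 ≤ G i b x) {c : β} (g4 : ∀ i, G i c = 0)
    {I : Set β} (hI : I.Countable) : ∃ θ : β → X → ℝ, Continuous θ ∧ (∀ b, Continuous (θ b)) ∧
      θ c = 0 ∧ ∀ b i, ↑i.1 ⊆ I → θ b = 0 → G i b = 0 := by
  obtain ⟨e, he⟩ := (((countable_ofPred_finite_subset hI).preimage_of_injOn
    (f := fun s : Finset β => (s : Set β)) Finset.coe_injective.injOn).prod
      (countable_univ (α := ℕ))).exists_eq_range ⟨(∅, 0), by simp⟩
  have n : ∀ n b x, 0 ≤ (1 / 2 : ℝ) ^ n * min 1 (G (e n) b x) := fun n b x =>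
    mul_nonneg (by positivity) (le_min zero_le_one (g3 _ _ _))
  have l : ∀ n b x, ‖(1 / 2 : ℝ) ^ n * min 1 (G (e n) b x)‖ ≤ (1 / 2) ^ n := fun k b x =>
    (Real.norm_of_nonneg (n k b x)).trans_le (mul_le_of_le_one_right (by positivity)
      (min_le_left _ _))
  refine ⟨fun b x => ∑' n, (1 / 2) ^ n * min 1 (G (e n) b x), continuous_pi fun x =>
    continuous_tsum (fun n => continuous_const.mul (continuous_const.min ((continuous_apply x).comp
      (g1 _)))) summable_geometric_two fun n b => l n b x, fun b => continuous_tsum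
    (fun n => continuous_const.mul (continuous_const.min (g2 _ _))) summable_geometric_two
    (l · b), funext fun x => by simp [g4], fun b i hi h => funext fun x => ?_⟩
  obtain ⟨k, rfl⟩ := (Set.ext_iff.1 he i).1 ⟨⟨i.1.finite_toSet, hi⟩, trivial⟩
  have := ((Summable.of_norm_bounded summable_geometric_two (l · b x)).le_tsum k
    fun j _ => n j b x).trans_eq (congrFun h x)
  have := nonpos_of_mul_nonpos_right this (by positivity)
  exact le_antisymm ((min_le_iff.1 this).resolve_left (by simp)) (g3 _ _ _)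

variable [CompactSpace β] (v : β → C(X × K, ℝ)) (hv : ∀ p, Continuous fun b => v b p)
  (hi : Injective v)
include hv hi

lemma tight (H : ∀ θ : β → X → ℝ, Continuous θ → (∀ b, Continuous (θ b)) → ∀ (S : Set β) c,
      c ∈ closure S → ∃ T ⊆ S, T.Countable ∧ θ c ∈ closure (θ '' T)) (S : Set β) (c : β)
    (hc : c ∈ closure S) : ∃ T ⊆ S, T.Countable ∧ c ∈ closure T := by
  classical
  obtain ⟨G, g1, g2, g3, g4, g5⟩ := theta v hv hi c
  choose θ t1 t2 t3 t4 using fun R : Finset β => sum g1 g2 g3 g4 (R.countable_toSet.insert c)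
  choose h h1 h2 h3 using fun R => H _ (t1 R) (t2 R) S c hc
  obtain ⟨T, k1, k2, k3⟩ := close h h2
  refine ⟨T, k2.trans (iUnion_subset h1), k1, by_contra fun hn => ?_⟩
  obtain ⟨F, hF⟩ := isClosed_closure.isCompact.elim_finite_subcover (s := closure T)
    (fun i : {i : Finset β × ℕ // ↑i.1 ⊆ insert c T} => {b | G i b ≠ 0})
    (fun i => isOpen_ne_fun (g1 _) continuous_const) fun b hb => by
      obtain ⟨i, i1, i2⟩ := g5 T b hb fun e => hn (e ▸ hb)
      exact mem_iUnion.2 ⟨⟨i, i1⟩, i2⟩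
  let R := (F.biUnion (·.1.1)).erase c
  obtain ⟨b, b1, b2⟩ := (t1 R).isClosedMap.closure_image_subset _ (h3 R)
  obtain ⟨i, i1, i2⟩ := mem_iUnion₂.1 (hF (closure_mono (k3 R fun a ha => by
    obtain ⟨e, ha⟩ := Finset.mem_erase.1 ha
    obtain ⟨j, -, ha⟩ := Finset.mem_biUnion.1 ha
    exact (j.2 ha).resolve_left e) b1))
  exact i2 (t4 R b i (fun a ha => (eq_or_ne a c).imp id fun e => Finset.mem_erase.2
    ⟨e, Finset.mem_biUnion.2 ⟨i, i1, ha⟩⟩) (b2.trans (t3 R)))

lemma fu (H : ∀ θ : β → X → ℝ, Continuous θ → (∀ b, Continuous (θ b)) → ∀ (S : Set β) c,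
      c ∈ closure S → ∃ u : ℕ → β, (∀ n, u n ∈ S) ∧ Tendsto (θ ∘ u) atTop (𝓝 (θ c))) :
    FrechetUrysohnSpace β := ⟨fun S c hc => by
  obtain ⟨T, k1, k2, k3⟩ := tight v hv hi (fun θ t1 t2 S c hc => by
    obtain ⟨u, u1, u2⟩ := H θ t1 t2 S c hc
    exact ⟨range u, range_subset_iff.2 u1, countable_range _, mem_closure_of_tendsto u2
      (.of_forall fun n => ⟨_, ⟨n, rfl⟩, rfl⟩)⟩) S c hc
  obtain ⟨G, g1, g2, g3, g4, g5⟩ := theta v hv hi c
  obtain ⟨θ, t1, t2, t3, t4⟩ := sum g1 g2 g3 g4 (k2.insert c)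
  obtain ⟨u, u1, u2⟩ := H θ t1 t2 T c k3
  refine ⟨u, fun n => k1 (u1 n), tendsto_nhds_of_unique_mapClusterPt fun b hb => by_contra
    fun hn => ?_⟩
  obtain ⟨i, i1, i2⟩ := g5 T b (mem_closure_iff_clusterPt.2 (hb.clusterPt.mono
    (le_principal_iff.2 (mem_map.2 (univ_mem' u1))))) hn
  exact i2 (t4 b i i1 ((eq_of_nhds_neBot ((hb.continuousAt_comp
    t1.continuousAt).clusterPt.mono u2)).trans t3))⟩

end Pool.Agent.H.MP_e70507
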